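import Pool.Agent.K9h69.Menon.Final2

/-!
# Symmetric designs with Menon parameters `(4u², 2u² - u, u² - u)` from skew-Hadamard matrices

Let `v > 1` be such that there are a skew-Hadamard matrix of order `v + 1` and a Hadamard matrix of order
`v² - 1` (for example because there is one of order `2 (v - 1)`). Then for all `u = 3 ^ b * t ^ 2 * v`, `t`
odd, there is a symmetric `(4u², 2u² - u, u² - u)`-design, equivalently a regular Hadamard matrix of
order `4u²`. So the skew-Hadamard conjecture and the Hadamard conjecture together imply the existence of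
the designs for all `u = 3` modulo `4`. Unconditionally there are skew-Hadamard matrices of order
`v + 1 = 2 ^ s * ∏ (q + 1)`, the product over a list of prime powers `q = 3` modulo `4`, and there is a
Hadamard matrix of order `2 (v - 1)` or `v² - 1` if `2v - 3`, `v - 2` or `v² - 2` is a prime power (Paley);
this gives the second part of the statement.

Method. Let `S` be the skew core of order `v`. The symmetric core `W = S ⊗ S + I ⊗ J - J ⊗ I` of order
`v²` belongs to a Hadamard matrix `M` of order `4v²` by Miyamoto's construction, which also uses an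
arbitrary Hadamard matrix of order `v² - 1`. With `s` the row number `o` of `S` and `e` the unit vector of
`o`, `W` maps the matrix `diag s * S - I + e 1ᵀ`, which has signs off the position `(o, o)`, to `v` times
the matrix `S * diag s - I + 1 eᵀ`; and it maps `φ ⊗ 1`, `φ` a sign vector with sum `1`, to
`v φ ⊗ 1 - 1`. With this `M` maps a vector of signs to `2v` times a vector of signs. For the factor
`w = 3 ^ b * t ^ 2` decompose `M` into four disjoint weighing matrices `X k` of weight `v²` and take the
matrix `∑ F k ⊗ X k`, `F k` sign matrices of order `w²` with row sums `w`, `F k (F l)ᵀ = J` for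
`k ≠ l`, `∑ F k (F k)ᵀ = 4 w² I`.
-/

set_option autoImplicit false

namespace Pool.Agent.Results.MP_3038d1_co.MenonFromSkewHadamard

/-- `B` lists the `v` blocks of a symmetric `(v, k, l)`-design on the point set `Fin v`:
`k < v`, `0 < l`, every block has `k` points, every point is in `k` blocks, any two distinct points
are in exactly `l` common blocks (and any two distinct blocks have exactly `l` common points). -/
def IsSymmetricDesign (v k l : ℕ) (B : Fin v → Finset (Fin v)) : Prop :=
  k < v ∧ 0 < l ∧ (∀ i, (B i).card = k) ∧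
  (∀ x, (Finset.univ.filter (fun i => x ∈ B i)).card = k) ∧
  (∀ x y, x ≠ y → (Finset.univ.filter (fun i => x ∈ B i ∧ y ∈ B i)).card = l) ∧
  (∀ i j, i ≠ j → (B i ∩ B j).card = l)

/-- there is a Hadamard matrix of order `n`: an `n × n` matrix `H` of signs with `H Hᵀ = n I` -/
def HasHadamardMatrix (n : ℕ) : Prop :=
  ∃ H : Matrix (Fin n) (Fin n) ℤ, (∀ i j, H i j = 1 ∨ H i j = -1) ∧ H * H.transpose = (n : ℤ) • 1

/-- there is a skew-Hadamard matrix of order `n`: a Hadamard matrix `H` with `H + Hᵀ = 2 I` -/
def HasSkewHadamardMatrix (n : ℕ) : Prop :=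
  ∃ H : Matrix (Fin n) (Fin n) ℤ, (∀ i j, H i j = 1 ∨ H i j = -1) ∧
    H * H.transpose = (n : ℤ) • 1 ∧ H + H.transpose = (2 : ℤ) • 1

/-- first part: a skew-Hadamard matrix of order `v + 1` and a Hadamard matrix of order `v ^ 2 - 1` or
`2 * (v - 1)` give the designs; second part: no skew-Hadamard matrix has to be assumed if
`v + 1` is a product of a power of two and of numbers `q + 1`, `q = 3` modulo `4` a prime power, and
no Hadamard matrix if one of `2 * v - 3`, `v - 2`, `v ^ 2 - 2` is a prime power -/
theorem result :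
    (∀ b t v u : ℕ, t % 2 = 1 → 1 < v → HasSkewHadamardMatrix (v + 1) →
      HasHadamardMatrix (v ^ 2 - 1) ∨ HasHadamardMatrix (2 * (v - 1)) → u = 3 ^ b * t ^ 2 * v →
      ∃ B, IsSymmetricDesign (4 * u ^ 2) (2 * u ^ 2 - u) (u ^ 2 - u) B) ∧
    ∀ (b t v u s : ℕ) (L : List ℕ), t % 2 = 1 → 1 < v → (∀ q ∈ L, IsPrimePow q ∧ q % 4 = 3) →
      v + 1 = 2 ^ s * (L.map (fun q => q + 1)).prod →
      HasHadamardMatrix (v ^ 2 - 1) ∨ HasHadamardMatrix (2 * (v - 1)) ∨ IsPrimePow (2 * v - 3) ∨
        IsPrimePow (v - 2) ∨ IsPrimePow (v ^ 2 - 2) → u = 3 ^ b * t ^ 2 * v →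
      ∃ B, IsSymmetricDesign (4 * u ^ 2) (2 * u ^ 2 - u) (u ^ 2 - u) B := by
  constructor
  · rintro b t v u ht hv ⟨H, h1, h2, h3⟩ h hu
    exact Pool.Agent.K9h69.Menon.menon_skew_final ht hv
      (Pool.Agent.K9h69.Menon.skewC_of_had H h1 h2 h3) h hu
  · intro b t v u s L ht hv hL hs h hu
    exact Pool.Agent.K9h69.Menon.menon_product_final L ht hv hL hs h hu

end Pool.Agent.Results.MP_3038d1_co.MenonFromSkewHadamard
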