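import Pool.Agent.K9h69.Menon.Family

/-!
# Unconditional infinite families of symmetric designs with Menon parameters, `u` odd

There is a constant `C` such that for every prime power `u` with `u ≤ 2 ↑↑ n` (the power tower of `n`
twos, `1` for `n = 0`) and `u ≡ -1` modulo `2 ^ (C ^ (n + 1))` there is a symmetric
`(4u², 2u² - u, u² - u)`-design. There are many such `u`: for all `s` and `0 < ε < 1` the sum of the
reciprocals of the primes `u ≤ x`, `u ≡ -1 (mod 2 ^ s)`, with such a design is at least
`(log log x) ^ (1 - ε)` for all large `x` (the sum over all primes `u ≤ x` is `log log x + O(1)`).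

Method. Miyamoto's Hadamard matrix of order `4u²`, `u ≡ 3 (mod 4)` a prime power, is regularisable
(`Pool.Agent.K9h69.Menon.menon_prime_pow`); it needs a Hadamard matrix of order `u² - 1`, which exists
by the theorem of the starting files on the orders `2 ^ t * q`, `t ≥ C ^ (1 + log* q)`. The primes
come from the lower bound of the starting files for the number of primes in progressions to moduli
`2 ^ k` up to a power of the modulus, used on about `log log x` scales.
-/

set_option autoImplicit false

namespace Pool.Agent.Results.MP_3038d1_co.MenonManyPrimes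

/-- `B` lists the `v` blocks of a symmetric `(v, k, l)`-design on the point set `Fin v`:
`k < v`, `0 < l`, every block has `k` points, every point is in `k` blocks, any two distinct points
are in exactly `l` common blocks (and any two distinct blocks have exactly `l` common points). -/
def IsSymmetricDesign (v k l : ℕ) (B : Fin v → Finset (Fin v)) : Prop :=
  k < v ∧ 0 < l ∧ (∀ i, (B i).card = k) ∧
  (∀ x, (Finset.univ.filter (fun i => x ∈ B i)).card = k) ∧
  (∀ x y, x ≠ y → (Finset.univ.filter (fun i => x ∈ B i ∧ y ∈ B i)).card = l) ∧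
  (∀ i j, i ≠ j → (B i ∩ B j).card = l)

open scoped Classical in
/-- first part: the explicit family; second part: the number of its members which are prime -/
theorem result :
    (∃ C : ℕ, ∀ n u : ℕ, IsPrimePow u → u ≤ (fun x : ℕ => 2 ^ x)^[n] 1 →
      2 ^ C ^ (n + 1) ∣ u + 1 →
      ∃ B, IsSymmetricDesign (4 * u ^ 2) (2 * u ^ 2 - u) (u ^ 2 - u) B) ∧
    ∀ (s : ℕ) (ε : ℝ), 0 < ε → ε < 1 → ∃ x₀ : ℕ, ∀ x : ℕ, x₀ ≤ x →
      (Real.log (Real.log x)) ^ (1 - ε) ≤
        ∑ u ∈ (Finset.range (x + 1)).filter (fun u => u.Prime ∧ 2 ^ s ∣ u + 1 ∧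
          ∃ B, IsSymmetricDesign (4 * u ^ 2) (2 * u ^ 2 - u) (u ^ 2 - u) B), (1 : ℝ) / u := by
  constructor
  · obtain ⟨C, hC2, hC⟩ := Pool.Agent.K9h69.Menon.menon_of_tow
    refine ⟨C ^ 3, fun n u hu hn hd => ?_⟩
    refine hC (n + 2) u ((C ^ 3) ^ (n + 1)) hu ?_ ?_ hd
    · change u ≤ Pool.Agent.W851.Had.tow n at hn
      rw [Pool.Agent.W851.Had.tow_succ, Pool.Agent.W851.Had.tow_succ]
      have h1 : u ^ 2 ≤ 2 ^ (2 * u) := by
        rw [mul_comm, pow_mul]
        exact Nat.pow_le_pow_left Nat.lt_two_pow_self.le 2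
      refine h1.trans (Nat.pow_le_pow_right (by norm_num) ?_)
      have h2 : 2 * u ≤ 2 ^ u := by
        rcases Nat.eq_zero_or_pos u with h | h
        · subst h; norm_num
        · have h3 : u ≤ 2 ^ (u - 1) := by
            have : u - 1 < 2 ^ (u - 1) := Nat.lt_two_pow_self
            omega
          have h4 : 2 ^ u = 2 * 2 ^ (u - 1) := by
            conv_lhs => rw [show u = (u - 1) + 1 by omega, pow_succ]
            ring
          omega
      exact h2.trans (Nat.pow_le_pow_right (by norm_num) hn)
    · rw [← pow_mul]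
      exact Nat.pow_le_pow_right (by omega) (by omega)
  · intro s ε h1 h2
    obtain ⟨x₀, h3⟩ := Pool.Agent.K9h69.Menon.many s ε h1 h2
    refine ⟨x₀, fun x hx => (h3 x hx).trans (le_of_eq ?_)⟩
    have h4 : ∀ u : ℕ, Pool.Agent.K9h69.Menon.HasMenon u ↔
        ∃ B, IsSymmetricDesign (4 * u ^ 2) (2 * u ^ 2 - u) (u ^ 2 - u) B := fun u => Iff.rfl
    refine Finset.sum_congr ?_ fun _ _ => rfl
    ext u
    rw [Finset.mem_filter, Finset.mem_filter, h4]

end Pool.Agent.Results.MP_3038d1_co.MenonManyPrimes
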