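import Pool.Agent.K9h69.Menon.All

/-!
# Symmetric designs with Menon parameters `(4u², 2u² - u, u² - u)`, `u` odd, without any primality

There is a constant `C` such that for all `v ≤ 2 ↑↑ n` (the power tower of `n` twos, `1` for `n = 0`) with
`v + 1` divisible by `2 ^ 2 ^ C ^ (n + 1)` and all `u = 3 ^ b * t ^ 2 * v`, `t` odd, there is a symmetric
`(4u², 2u² - u, u² - u)`-design, equivalently a regular Hadamard matrix of order `4u²`. In particular,
for every `q ≥ 1` the designs with `u = 2 ^ s * q - 1` exist for all large `s`; and the number of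
`u ≤ x`, `u ≡ 3 (mod 4)`, with such a design is at least `x / 2 ^ 2 ^ C ^ (1 + log* x)` up to rounding.

Method. Let `S` be a skew core of order `v` (from a skew-Hadamard matrix of order `v + 1`). The starting
files have the symmetric core `W = S ⊗ S + I ⊗ J - J ⊗ I` of order `v²` and Miyamoto's Hadamard matrix
of order `4v²` belonging to it and to any Hadamard matrix of order `v² - 1`. New: this matrix is
regularisable. With `s` the row number `o` of `S` and `e` the unit vector of `o`, `W` maps the matrix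
`diag s * S - I + e 1ᵀ` (signs off the position `(o, o)`) to `v` times the matrix
`S * diag s - I + 1 eᵀ`; with this, Miyamoto's matrix maps a vector of signs to `2v` times a vector of
signs. The factors `3 ^ b * t ^ 2` come from a decomposition of Miyamoto's matrix into four disjoint
weighing matrices. The skew-Hadamard and Hadamard matrices needed are those of the asymptotic
existence theorems of the starting files (`Y342`, `W851`).
-/

set_option autoImplicit false

namespace Pool.Agent.Results.MP_3038d1_co.MenonNonPrimeOrders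

/-- `B` lists the `v` blocks of a symmetric `(v, k, l)`-design on the point set `Fin v`:
`k < v`, `0 < l`, every block has `k` points, every point is in `k` blocks, any two distinct points
are in exactly `l` common blocks (and any two distinct blocks have exactly `l` common points). -/
def IsSymmetricDesign (v k l : ℕ) (B : Fin v → Finset (Fin v)) : Prop :=
  k < v ∧ 0 < l ∧ (∀ i, (B i).card = k) ∧
  (∀ x, (Finset.univ.filter (fun i => x ∈ B i)).card = k) ∧
  (∀ x y, x ≠ y → (Finset.univ.filter (fun i => x ∈ B i ∧ y ∈ B i)).card = l) ∧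
  (∀ i j, i ≠ j → (B i ∩ B j).card = l)

open scoped Classical in
/-- first part: the explicit family; second part: the numbers `2 ^ s * q - 1`; third part: a lower
bound for the number of `u ≤ x`, `u = 3` modulo `4`, which occur -/
theorem result :
    (∃ C : ℕ, ∀ n b t v u : ℕ, t % 2 = 1 → v ≤ (fun x : ℕ => 2 ^ x)^[n] 1 →
      2 ^ 2 ^ C ^ (n + 1) ∣ v + 1 → u = 3 ^ b * t ^ 2 * v →
      ∃ B, IsSymmetricDesign (4 * u ^ 2) (2 * u ^ 2 - u) (u ^ 2 - u) B) ∧
    (∀ q : ℕ, 0 < q → ∃ s₀ : ℕ, ∀ s b t u : ℕ, s₀ ≤ s → t % 2 = 1 →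
      u = 3 ^ b * t ^ 2 * (2 ^ s * q - 1) →
      ∃ B, IsSymmetricDesign (4 * u ^ 2) (2 * u ^ 2 - u) (u ^ 2 - u) B) ∧
    ∃ C : ℕ, ∀ n x : ℕ, x ≤ (fun x : ℕ => 2 ^ x)^[n] 1 →
      (x + 1) / 2 ^ 2 ^ C ^ (n + 1) ≤
        ((Finset.range (x + 1)).filter (fun u => u % 4 = 3 ∧
          ∃ B, IsSymmetricDesign (4 * u ^ 2) (2 * u ^ 2 - u) (u ^ 2 - u) B)).card := by
  refine ⟨?_, ?_, ?_⟩
  · obtain ⟨C, -, hC⟩ := Pool.Agent.K9h69.Menon.menon_all
    exact ⟨C, fun n b t v u ht hv hd hu => hC n b t v u ht hv hd hu⟩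
  · intro q hq
    obtain ⟨s₀, h⟩ := Pool.Agent.K9h69.Menon.menon_eventually q hq
    exact ⟨s₀, fun s b t u hs ht hu => h s b t u hs ht hu⟩
  · obtain ⟨C, hC⟩ := Pool.Agent.K9h69.Menon.menon_count
    refine ⟨C, fun n x hx => (hC n x hx).trans (le_of_eq ?_)⟩
    have h4 : ∀ u : ℕ, Pool.Agent.K9h69.Menon.HasMenon u ↔
        ∃ B, IsSymmetricDesign (4 * u ^ 2) (2 * u ^ 2 - u) (u ^ 2 - u) B := fun u => Iff.rfl
    congr 1
    ext u
    rw [Finset.mem_filter, Finset.mem_filter, h4]

end Pool.Agent.Results.MP_3038d1_co.MenonNonPrimeOrders
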