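import Pool.Agent.K9h69.Menon.Final2
import Pool.Agent.K9h69.Menon.Table
import Pool.Agent.K9h69.Menon.TableB

/-!
# Symmetric designs with Menon parameters `(4u², 2u² - u, u² - u)`, `u = 3 ^ b * t ^ 2 * v`, `v` a prime power

Let `v` be an odd prime power such that there is a Hadamard matrix of order `v² - 1` (for example because
there is one of order `2 (v - 1)`, `v ≡ 3 (mod 4)`, or of order `v - 1`, `v ≡ 1 (mod 4)`). Then for all
`u = 3 ^ b * t ^ 2 * v`, `t` odd, there is a symmetric `(4u², 2u² - u, u² - u)`-design, equivalently a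
regular Hadamard matrix of order `4u²`. In particular this holds for all odd prime powers `v < 20000`
except possibly `27` of them.

Method. Miyamoto's Hadamard matrix `M` of order `4q`, `q = v²`, is built from the quadratic character
`χ` of the field `E` with `q` elements and any Hadamard matrix of order `q - 1`. It maps a vector of
signs to `2v` times a vector of signs: on the first half take a sign function of the imaginary part
with sum `1`; on the second half a function `b` on `E ∖ 0` with `b ((w̄ / w) x) = χ w * b x` (there is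
one, as `χ = 1` on the small field), for which `∑ χ (x - y) b y = v χ ω χ x b x`, `ω` purely
imaginary. For the factor `3 ^ b * t ^ 2` decompose `M` into four disjoint weighing matrices `X k` of
weight `q` and take `∑ F k ⊗ X k` with the four sign matrices `F k` of Turyn and Chen.
-/

set_option autoImplicit false

namespace Pool.Agent.Results.MP_3038d1_co.MenonOddPrimePowers

/-- `B` lists the `v` blocks of a symmetric `(v, k, l)`-design on the point set `Fin v`:
`k < v`, `0 < l`, every block has `k` points, every point is in `k` blocks, any two distinct points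
are in exactly `l` common blocks (and any two distinct blocks have exactly `l` common points). -/
def IsSymmetricDesign (v k l : ℕ) (B : Fin v → Finset (Fin v)) : Prop :=
  k < v ∧ 0 < l ∧ (∀ i, (B i).card = k) ∧
  (∀ x, (Finset.univ.filter (fun i => x ∈ B i)).card = k) ∧
  (∀ x y, x ≠ y → (Finset.univ.filter (fun i => x ∈ B i ∧ y ∈ B i)).card = l) ∧
  (∀ i j, i ≠ j → (B i ∩ B j).card = l)

/-- there is a Hadamard matrix of order `n`: an `n × n` matrix `H` of signs with `H Hᵀ = n I` -/
def HasHadamardMatrix (n : ℕ) : Prop :=
  ∃ H : Matrix (Fin n) (Fin n) ℤ, (∀ i j, H i j = 1 ∨ H i j = -1) ∧ H * H.transpose = (n : ℤ) • 1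

/-- first part: every odd prime power `v` such that there is a Hadamard matrix of order `v ^ 2 - 1`,
or of order `2 * (v - 1)` (`v = 3` modulo `4`), or of order `v - 1` (`v = 1` modulo `4`);
second part: no hypothesis for `v < 20000`, with `27` exceptions -/
theorem result :
    (∀ b t v u : ℕ, t % 2 = 1 → IsPrimePow v → v % 2 = 1 →
      HasHadamardMatrix (v ^ 2 - 1) ∨ v % 4 = 3 ∧ HasHadamardMatrix (2 * (v - 1)) ∨
        v % 4 = 1 ∧ HasHadamardMatrix (v - 1) → u = 3 ^ b * t ^ 2 * v →
      ∃ B, IsSymmetricDesign (4 * u ^ 2) (2 * u ^ 2 - u) (u ^ 2 - u) B) ∧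
    ∀ b t v u : ℕ, t % 2 = 1 → IsPrimePow v → v % 2 = 1 → v < 20000 →
      v ∉ ([2063, 2677, 2777, 3733, 3917, 4567, 5701, 5843, 6053, 6653, 7927, 8573, 9497, 10343,
        10631, 11897, 12107, 12569, 14173, 14437, 15493, 16333, 16573, 18301, 19037, 19373,
        19507] : List ℕ) → u = 3 ^ b * t ^ 2 * v →
      ∃ B, IsSymmetricDesign (4 * u ^ 2) (2 * u ^ 2 - u) (u ^ 2 - u) B := by
  constructor
  · intro b t v u ht hv h2 h hu
    exact Pool.Agent.K9h69.Menon.menon_prime_final ht hv h2 h hu
  · intro b t v u ht hv h2 hlt hx hu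
    refine Pool.Agent.K9h69.Menon.menon_prime_final ht hv h2 (Or.inl ?_) hu
    simp only [List.mem_cons, List.not_mem_nil, or_false, not_or] at hx
    have h4 : v % 4 = 1 ∨ v % 4 = 3 := by omega
    rcases h4 with h4 | h4
    · refine Pool.Agent.K9h69.Menon.had_sq_sub_one1 hv h4 ?_ hlt
      simp only [Pool.Agent.K9h69.Menon.exc1, List.mem_cons, List.not_mem_nil, or_false, not_or]
      tauto
    · refine Pool.Agent.K9h69.Menon.had_sq_sub_one hv h4 ?_ hlt
      simp only [Pool.Agent.K9h69.Menon.exc, List.mem_cons, List.not_mem_nil, or_false, not_or]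
      tauto

end Pool.Agent.Results.MP_3038d1_co.MenonOddPrimePowers
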